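import Mathlib
import Pool.Agent.Helper231_T2.Main
import Pool.Agent.H409_TG.Lit

set_option autoImplicit false

/-! # The halting problem for `T(2, ν)` is undecidable for every `ν > 2` (Q1)

For every deletion number `ν > 2` one tag system with two symbols and deletion number `ν` (its rules have the form
`0 ↦ 0`, `1 ↦ u`) has an undecidable halting problem: it is not computable whether the iteration from a given word
reaches a word of length less than `ν` (it stops); and if steps are allowed on all nonempty words, it is not computable
whether the empty word is reached.  The third reading of halting, steps on words of length at least `ν` only and the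
empty word as target, is degenerate for two symbols, since the empty word can then be produced by an empty production
only; it is decidable, uniformly in the two productions `x.1.1` (of `false`), `x.1.2` (of `true`) and the word `x.2`. -/

namespace Pool.Agent.Results.MP_b40757_lc.HaltingBinary

open Pool.Agent.Helper231_T2

theorem result (ν : ℕ) (hν : 2 < ν) :
    (∃ P : Bool → List Bool,
      ¬ ComputablePred (fun S : List Bool => Halts ν P S) ∧
      ¬ ComputablePred (fun S : List Bool => Empties ν P S)) ∧
    ComputablePred (fun x : (List Bool × List Bool) × List Bool =>
      Reaches ν (fun a => if a then x.1.2 else x.1.1) x.2 []) := by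
  obtain ⟨P, h1, h2, _⟩ := main ν hν
  exact ⟨⟨P, h1, h2⟩, Pool.Agent.H409_TG.literal ν (by omega)⟩

end Pool.Agent.Results.MP_b40757_lc.HaltingBinary
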