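import Mathlib
import Pool.Agent.Helper231_T2.Main

set_option autoImplicit false

/-! # The reachability problem for `T(2, ν)` is undecidable for every `ν > 2` (Q2)

For every deletion number `ν > 2` there are one tag system with two symbols and deletion number `ν` and one fixed
target word `S'` such that it is not computable whether the iteration from a given word produces `S'`. -/

namespace Pool.Agent.Results.MP_b40757_lc.ReachBinary

open Pool.Agent.Helper231_T2

theorem result (ν : ℕ) (hν : 2 < ν) : ∃ (P : Bool → List Bool) (S' : List Bool),
    ¬ ComputablePred (fun S : List Bool => Reaches ν P S S') := by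
  obtain ⟨P, _, _, h3⟩ := main ν hν
  exact ⟨P, _, h3⟩

end Pool.Agent.Results.MP_b40757_lc.ReachBinary
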